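import Pool.Agent.Q182.ComTree

/-!
# Groups acting on trees with edge stabilizers commensurable to a rigid group

`C` is any class of groups with the closure properties `ClosedE C`, all of which are known for the
class of the groups that satisfy the Full Farrell–Jones Conjecture.

For instance let `H` be a lattice in a centreless connected semisimple Lie group without compact
factors to which the rigidity theorem of Mostow, Prasad and Margulis applies. Every isomorphism
between subgroups of finite index in `H` is the restriction of a unique automorphism of the Lie
group, so the theorem applies with `P` the commensurator of `H`; it is a lattice or a linear group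
over a number field.

Outline of the proof. The group `H` is commensurated by `G`. Sending `g` to the only element of `P`
which induces conjugation by `g` on a subgroup of finite index in `H` defines a homomorphism
`G → P` which extends `ψ`. Its restriction to each edge stabilizer is injective.
-/

set_option autoImplicit false

namespace Pool.Agent.Results.MP_9d1ffa_al.CommensurableEdges

open Pool.Agent.Y110.FJ (ClosedE)

/-- Let `C` be a class of groups with the closure properties `ClosedE C`. Let `G` be a group acting
without inversions on a tree so that all vertex stabilizers are in `C`, and let `H` be a subgroup of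
`G` which is commensurable with all edge stabilizers. Suppose that no nontrivial element of finite
order of an edge stabilizer centralizes a subgroup of finite index in `H` (for instance that the edge
stabilizers are torsion-free). Let `ψ` be an injective homomorphism from `H` to a group `P` in `C`
such that

* the centralizer in `P` of the image of any subgroup of finite index in `H` is trivial;
* for every `g` in `G`, conjugation by `g` on some subgroup of finite index in `H` is induced by
  conjugation with an element of `P`.

Then `G` is in `C`. -/
theorem result (C : ∀ (G : Type) [Group G], Prop) (hC : ClosedE C) (G V P : Type) [Group G]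
    [Group P] [MulAction G V] (T : SimpleGraph V) (hT : T.IsTree)
    (hadj : ∀ (g : G) (v w : V), T.Adj v w → T.Adj (g • v) (g • w))
    (hinv : ∀ (g : G) (v w : V), T.Adj v w → ¬ (g • v = w ∧ g • w = v))
    (hst : ∀ v : V, C (MulAction.stabilizer G v))
    (H : Subgroup G)
    (hH : ∀ v w : V, T.Adj v w →
      Subgroup.Commensurable H (MulAction.stabilizer G v ⊓ MulAction.stabilizer G w))
    (htors : ∀ (g : G) (v w : V), T.Adj v w → g • v = v → g • w = w →
      ∀ n : ℕ, 0 < n → g ^ n = 1 →
      ∀ K : Subgroup G, K ≤ H → K.relIndex H ≠ 0 → (∀ k ∈ K, g * k = k * g) → g = 1)
    (hP : C P) (ψ : H →* P) (hψ : Function.Injective ψ)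
    (hcent : ∀ K : Subgroup G, K ≤ H → K.relIndex H ≠ 0 → ∀ p : P,
      (∀ k : H, (k : G) ∈ K → p * ψ k = ψ k * p) → p = 1)
    (hreal : ∀ g : G, ∃ (p : P) (K : Subgroup G), K ≤ H ∧ K.relIndex H ≠ 0 ∧
      ∀ k : H, (k : G) ∈ K → ∃ hk : g * k * g⁻¹ ∈ H, ψ ⟨g * k * g⁻¹, hk⟩ = p * ψ k * p⁻¹) :
    C G :=
  Q182.ComTree.main hC hT hadj hinv hst H htors hH hP ψ hψ hcent hreal

end Pool.Agent.Results.MP_9d1ffa_al.CommensurableEdges
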