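import Pool.Agent.Q30.GG.Ger3

/-!
# Groups of homeomorphisms of a product of finite sets with finitely many singular points

`C` is any class of groups with the closure properties `ClosedE C`, all of which are known for the
class of the groups that satisfy the Full Farrell–Jones Conjecture (`K`- and `L`-theory).

`Om V` is the product of the finite sets `V 0, V 1, ...`, and `Agr m ρ σ` says that the first `m`
letters of `ρ` and `σ` agree. The group `G` consists of homeomorphisms of `Om V` which are isometries
on small balls (of a size that can depend on the element), contains all germs of changes of finitely
many letters, and each of its elements changes only finitely many letters near all but finitely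
many points. There is no condition on the behaviour near the exceptional points, except that the
groups of germs are in `C`.

Outline of the proof. Passing to the sections of a level one reduces to automorphisms of the tree of
finite words. Those with one exceptional ray form, together with the rays, a groupoid whose isotropy
groups are extensions of groups of germs by locally finite groups. Its universal group, a free
product of the isotropy groups and a free group, has together with the finitary automorphisms a
wreath recursion, and every element is brought by it to finitary or directed automorphisms. Hence the
group generated by the directed automorphisms is the directed colimit of subgroups of iterated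
wreath products of these covers.
-/

set_option autoImplicit false

namespace Pool.Agent.Results.MP_9d1ffa_al.GermGroups

open Pool.Agent.Y110.FJ (ClosedE)
open Q30.GG (Om Agr Fix)

/-- Let `C` be a class of groups with the closure properties `ClosedE C`. Let `V 0, V 1, ...` be
finite sets and let `G` be a group of permutations of their product `Om V` such that

1. for each `g` in `G` there is an `N` such that for all `m ≥ N` the images of points with the same
first `m` letters have the same first `m` letters;

2. if two points `ρ` and `σ` differ in finitely many letters only, then some element of `G` acts near
`ρ` by replacing the first letters of `ρ` by those of `σ`;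

3. for each `g` in `G` all but finitely many points have a neighbourhood and a `k` such that `g`
changes only the first `k` letters of the points of the neighbourhood;

4. for every point `ρ` the group of germs at `ρ` of the elements of `G` that fix `ρ` is in `C`: there
is a homomorphism from the stabilizer of `ρ` to a group in `C` whose kernel consists of the elements
which are trivial near `ρ`.

Then `G` is in `C`. -/
theorem result (C : ∀ (G : Type) [Group G], Prop) (hC : ClosedE C) (X : Type) (V : ℕ → Set X)
    (hV : ∀ n, (V n).Finite) (G : Subgroup (Equiv.Perm (Om V)))
    (h1 : ∀ g ∈ G, ∃ N, ∀ m ≥ N, ∀ ρ σ : Om V, Agr m ρ σ → Agr m (g ρ) (g σ))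
    (h2 : ∀ (n : ℕ) (ρ σ : Om V), (∀ m ≥ n, ρ.1 m = σ.1 m) → ∃ g ∈ G, ∃ k ≥ n, ∀ τ : Om V,
      Agr k ρ τ → Agr k σ (g τ) ∧ ∀ m ≥ k, (g τ).1 m = τ.1 m)
    (h3 : ∀ g ∈ G, {ρ : Om V | ¬ ∃ k, ∀ τ : Om V, Agr k ρ τ →
      ∀ m ≥ k, (g τ).1 m = τ.1 m}.Finite)
    (h4 : ∀ ρ : Om V, ∃ (Q : Type) (_ : Group Q) (φ : ↥(Fix G ρ) →* Q), C Q ∧
      ∀ g, φ g = 1 ↔ ∃ k, ∀ τ : Om V, Agr k ρ τ → g.1 τ = τ) : C G :=
  Q30.GG.germ_main hC hV G h1 h2 h3 h4

end Pool.Agent.Results.MP_9d1ffa_al.GermGroups
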