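import Pool.Agent.Q27.HKN.Step

/-!
# Farrell–Jones groups: kernels with non-invariant series

`ClosedF C` lists closure properties of the class of groups which satisfy the fibered Farrell–Jones
conjecture in K- and L-theory with finite wreath products (subgroups, finite products, free products,
overgroups of finite index, directed colimits, the extension criterion, extensions with free kernel);
this class contains all solvable groups. `D = C` is allowed.

Outline of the proof. Let `N` be normal in `V` with infinite cyclic quotient generated by `c`, and let
`F` be normal in `N`, but not in `V`. The homomorphism of `N` to `N / F` and its conjugates under the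
powers of `c` combine to a homomorphism of `V` to the unrestricted wreath product of `N / F` and `ℤ`,
which is in `C` if `N / F` is virtually solvable. Its kernel is a subgroup of `F`. So if all
extensions with kernel a subgroup of `F` and cyclic quotient are in `C`, then `V` is in `C`, and the
same applies to the subgroups of `N` instead of `N`.
-/

set_option autoImplicit false

namespace Pool.Agent.Results.MP_9d1ffa_al.SubnormalKernels

open Matrix
open Q30.FJ (ClosedOver ClosedF)
open Q27.HKN (Ser ASer)
open Q27.TRC (chars)

/-- Let `C` be a class of groups with the closure properties `ClosedF C` which contains all solvable
groups, and let the class `D` be closed under subgroups and satisfy the extension principle over `C`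
(`D = C` is possible). Let `N` be a normal subgroup of `G` with `G ⧸ N` in `D`. Then `G` is in `D` in
each of the following cases.

(1) `N` is in `Ser`, the smallest class of groups which contains the free, the virtually solvable and
the locally finite groups, and contains with `F` its subgroups, the groups in which `F` has finite
index and those in which `F` is normal with virtually solvable quotient, or with a quotient `H` that
has a solvable normal subgroup `S` such that all finitely generated subgroups of the group of all maps
of `ℤ` to `H ⧸ S` are finite. (Nothing is assumed about the action of `G` on `F`.)

(2) `N` is reached from the trivial subgroup by transfinitely many extensions, with factors in `Ser`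
and terms which are normal in `G`, and directed unions.

(3) `C` contains all groups `GL_m(ℚ)`, and `N` has a representation of some degree `n` over an
algebraically closed field `K` of characteristic zero with kernel in `Ser`, and only finitely many
characters of degree `n` over `K`. -/
theorem result (C D : ∀ (G : Type) [Group G], Prop) (hC : ClosedF C) (hD : ClosedOver C D)
    (hsol : ∀ (G : Type) [Group G], Group.IsSolvable G → C G) (G : Type) [Group G]
    (N : Subgroup G) [N.Normal] (hQ : D (G ⧸ N)) :
    (Ser N → D G) ∧ (ASer N → D G) ∧
    ((∀ m : ℕ, C (GL (Fin m) ℚ)) → ∀ (n : ℕ) (K : Type) [Field K] [IsAlgClosed K] [CharZero K]
      (ρ : N →* GL (Fin n) K), (chars N n K).Finite → Ser ρ.ker → D G) :=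
  ⟨fun h => Q27.HKN.main_ser hC hD hsol N h hQ, fun h => Q27.HKN.main_aser hC hD hsol N h hQ,
    fun hQQ _ _ _ _ _ ρ hfin hk => Q27.HKN.main_chars hC hD hsol hQQ N ρ hfin hk hQ⟩

end Pool.Agent.Results.MP_9d1ffa_al.SubnormalKernels
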