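import Pool.Agent.Q175.LG.Vc

set_option autoImplicit false

/-! The logarithmic law for `K₁(ℤG)`, `G` any group (torsion allowed): invertible matrices of norm in
a window above `3 / √2`, whose width is exponentially small in the size or in the norm of the inverse,
are block diagonal over virtually cyclic subgroups; so representatives of norm at most `3 / √2 + 2⁻ᴸ` of
a class which does not come from virtually cyclic subgroups have size and inverse at least proportional
to `L`, and there are such representatives whose size and inverse are at most proportional to `L`. -/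

namespace Pool.Agent.Results.MP_9d1ffa_al.VirtuallyCyclicLogarithmicLaw

open TH57.Thr Pool.Agent.Q181.LW

/-- The subgroup of `GL_κ(ℤG)` generated by the invertible matrices over the group rings `ℤV` of the
virtually cyclic subgroups `V` of `G`. -/
noncomputable def FromVC (G : Type) [Group G] (κ : Type) [Fintype κ] [DecidableEq κ] :
    Subgroup (Matrix κ κ (MonoidAlgebra ℤ G))ˣ :=
  ⨆ V : {V : Subgroup G // ∃ s : V, (Subgroup.zpowers s).FiniteIndex},
    (Units.map ((MonoidAlgebra.mapDomainRingHom ℤ V.1.subtype).mapMatrix :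
      Matrix κ κ (MonoidAlgebra ℤ V.1) →+* Matrix κ κ (MonoidAlgebra ℤ G)).toMonoidHom).range

/-- Up to a permutation of the rows and multiplication of rows and columns by group elements, `A` is
block diagonal with blocks over group rings of virtually cyclic subgroups, and so is its inverse. -/
def BlockVC {G : Type} [Group G] {κ : Type} [Fintype κ] [DecidableEq κ]
    (A : (Matrix κ κ (MonoidAlgebra ℤ G))ˣ) : Prop :=
  ∃ (r : κ → κ ⊕ κ) (V : κ ⊕ κ → Subgroup G) (u w : κ → G) (σ : Equiv.Perm κ),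
    (∀ b, ∃ s : V b, (Subgroup.zpowers s).FiniteIndex) ∧
    (∀ i j g, ((A : Matrix κ κ (MonoidAlgebra ℤ G)) (σ i) j).coeff g ≠ 0 →
      r i = r j ∧ u (σ i) * g * (w j)⁻¹ ∈ V (r i)) ∧
    (∀ i j g, ((↑A⁻¹ : Matrix κ κ (MonoidAlgebra ℤ G)) i (σ j)).coeff g ≠ 0 →
      r i = r j ∧ w i * g * (u (σ j))⁻¹ ∈ V (r i))

theorem result (G : Type) [Group G] (n : ℕ)
    (A : (Matrix (Fin n) (Fin n) (MonoidAlgebra ℤ G))ˣ) :
    (NormLE A.val (3 / Real.sqrt 2 + (1 / 2) ^ (2 * n + 30)) →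
      BlockVC A ∧ A ∈ FromVC G (Fin n)) ∧
    (∀ K : ℕ, NormLE A⁻¹.val K → NormLE A.val (3 / Real.sqrt 2 + (1 / 2) ^ (8 * K + 31)) →
      BlockVC A ∧ A ∈ FromVC G (Fin n)) ∧
    ((∀ (m : ℕ) (B : (Matrix (Fin n ⊕ Fin m) (Fin n ⊕ Fin m) (MonoidAlgebra ℤ G))ˣ),
        Represents A B → B ∉ FromVC G (Fin n ⊕ Fin m)) →
      ∀ (L m : ℕ) (B : (Matrix (Fin n ⊕ Fin m) (Fin n ⊕ Fin m) (MonoidAlgebra ℤ G))ˣ),
      Represents A B → NormLE B.val (3 / Real.sqrt 2 + (1 / 2) ^ L) →
        L < 2 * (n + m) + 30 ∧ ∀ K : ℕ, NormLE B⁻¹.val K → L < 8 * K + 31) ∧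
    (∃ C : ℕ, ∀ L : ℕ, 1 ≤ L → ∃ (m : ℕ)
      (B : (Matrix (Fin n ⊕ Fin m) (Fin n ⊕ Fin m) (MonoidAlgebra ℤ G))ˣ),
      Represents A B ∧ NormLE B.val (3 / Real.sqrt 2 + (1 / 2) ^ L) ∧ m ≤ C * L ∧
        NormLE B⁻¹.val (C * L : ℕ)) := by
  refine ⟨fun hA => Pool.Agent.Q175.LG.form_of A
      (Pool.Agent.Q175.LG.st_size A (by rwa [Fintype.card_fin])),
    fun K hB hA => Pool.Agent.Q175.LG.form_of A (Pool.Agent.Q175.LG.st_inv A K hB hA),
    fun hA L m B hAB hB => ⟨?_, ?_⟩, ?_⟩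
  · by_contra hcon
    push Not at hcon
    exact hA m B hAB (Pool.Agent.Q175.LG.form_of B (Pool.Agent.Q175.LG.st_size B (by
      rw [Fintype.card_sum, Fintype.card_fin, Fintype.card_fin]
      exact thr_mono B.val hcon hB))).2
  · intro K hK
    by_contra hcon
    push Not at hcon
    exact hA m B hAB (Pool.Agent.Q175.LG.form_of B (Pool.Agent.Q175.LG.st_inv B K hK
      (thr_mono B.val hcon hB))).2
  · obtain ⟨C, hC⟩ := upper_fin n A
    refine ⟨C, fun L hL => ?_⟩
    obtain ⟨m, B, h1, h2, h3, h4⟩ := hC L hL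
    exact ⟨m, B, h1, h3, h2, h4⟩

end Pool.Agent.Results.MP_9d1ffa_al.VirtuallyCyclicLogarithmicLaw
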